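import Pool.Agent.P.MP_542002_pr.H59.Sep

/-! Infinitely many linearly independent bounded harmonic functions. -/

namespace Pool.Agent.P.MP_542002_pr.H59

open Finset Filter BoundedContinuousFunction

theorem not_finite {W : Type*} [NormedAddCommGroup W] [NormedSpace ℝ W] (Λ : ℕ → W →L[ℝ] ℝ)
    (C c : ℝ) (hc : 0 < c) (hC : 0 < C) (hΛ : ∀ n, ‖Λ n‖ ≤ C)
    (h : ∀ i j, i < j → ∃ f : W, ‖f‖ ≤ C ∧ c ≤ Λ j f - Λ i f) : ¬ Module.Finite ℝ W := by
  intro hfin
  have : ProperSpace (W →L[ℝ] ℝ) := FiniteDimensional.proper_real _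
  obtain ⟨a, -, φ, hφ, ha⟩ := tendsto_subseq_of_bounded
    (Metric.isBounded_closedBall (x := (0 : W →L[ℝ] ℝ)) (r := C)) (x := Λ)
    (fun n => by simpa using hΛ n)
  obtain ⟨N, hN⟩ := Metric.cauchySeq_iff'.1 ha.cauchySeq (c / C) (by positivity)
  obtain ⟨f, f1, f2⟩ := h (φ N) (φ (N + 1)) (hφ (Nat.lt_succ_self N))
  have h1 := hN (N + 1) (Nat.le_succ N)
  rw [dist_eq_norm, lt_div_iff₀ hC] at h1
  have h2 := (Λ (φ (N + 1)) - Λ (φ N)).le_opNorm f
  have h3 : Λ (φ (N + 1)) f - Λ (φ N) f ≤ ‖(Λ (φ (N + 1)) - Λ (φ N)) f‖ := le_abs_self _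
  have h4 := mul_le_mul_of_nonneg_left f1 (norm_nonneg (Λ (φ (N + 1)) - Λ (φ N)))
  simp only [Function.comp] at h1
  linarith

theorem exists_indep {W : Type*} [AddCommGroup W] [Module ℝ W] (h : ¬ Module.Finite ℝ W) :
    ∃ f : ℕ → W, LinearIndependent ℝ f := by
  let b := Module.Basis.ofVectorSpace ℝ W
  have : Infinite (Module.Basis.ofVectorSpaceIndex ℝ W) := by
    by_contra hi
    have : Finite (Module.Basis.ofVectorSpaceIndex ℝ W) := not_infinite_iff_finite.1 hi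
    exact h (Module.Finite.of_basis b)
  exact ⟨_, b.linearIndependent.comp _ (Infinite.natEmbedding _).injective⟩

variable {V : Type*} [DecidableEq V] (G : SimpleGraph V) [G.LocallyFinite]

theorem indep_of_super [Nonempty V] (q : ℕ) (hreg : G.IsRegularOfDegree (q + 1)) (t : ℝ)
    (ht0 : 0 < t) (ht1 : t < 1) (htq : t ^ 2 * q = 1) (h : V → ℝ) (h0 : ∀ x, 0 < h x)
    (hs : ∀ x, t * ∑ y ∈ G.neighborFinset x, h y ≤ 2 * h x) :
    ∃ f : ℕ → V → ℝ, LinearIndependent ℝ f ∧ ∀ n, (∃ C : ℝ, ∀ v, |f n v| ≤ C) ∧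
      ∀ v, ((q : ℝ) + 1) * f n v = ∑ w ∈ G.neighborFinset v, f n w := by
  obtain ⟨c, a, b, hc, hsep⟩ := sep_of_super G q hreg t ht0 ht1 htq h h0 hs
  let _ : TopologicalSpace V := ⊥
  have : DiscreteTopology V := ⟨rfl⟩
  let W : Submodule ℝ (V →ᵇ ℝ) :=
    { carrier := {f | ∀ v, ((q : ℝ) + 1) * f v = ∑ w ∈ G.neighborFinset v, f w}
      add_mem' := fun {f g} hf hg v => by
        simp only [BoundedContinuousFunction.add_apply, mul_add, Finset.sum_add_distrib]
        rw [hf v, hg v]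
      zero_mem' := fun v => by simp
      smul_mem' := fun r f hf v => by
        simp only [BoundedContinuousFunction.smul_apply, smul_eq_mul]
        rw [← Finset.mul_sum, ← hf v]
        ring }
  let Λ : ℕ → W →L[ℝ] ℝ := fun n =>
    ((q : ℝ) • evalCLM ℝ (b n) - evalCLM ℝ (a n) : (V →ᵇ ℝ) →L[ℝ] ℝ).comp W.subtypeL
  have hΛ : ∀ n (f : W), Λ n f = q * f.1 (b n) - f.1 (a n) := fun n f => rfl
  have hq : (0 : ℝ) ≤ q := Nat.cast_nonneg q
  have hnf : ¬ Module.Finite ℝ W := by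
    refine not_finite (W := W) Λ (q + 1) c hc (by linarith) (fun n => ?_) fun i j hij => ?_
    · refine ContinuousLinearMap.opNorm_le_bound _ (by linarith) fun f => ?_
      rw [hΛ]
      have h1 := f.1.norm_coe_le_norm (b n)
      have h2 := f.1.norm_coe_le_norm (a n)
      have h3 := norm_sub_le (q * f.1 (b n)) (f.1 (a n))
      rw [norm_mul, Real.norm_of_nonneg hq] at h3
      have h4 := mul_le_mul_of_nonneg_left h1 hq
      change _ ≤ (q + 1) * ‖f.1‖
      linarith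
    · obtain ⟨f, f1, f2, f3⟩ := hsep i j hij
      refine ⟨⟨ofNormedAddCommGroupDiscrete f (q + 1) f1, f2⟩, ?_, f3⟩
      exact (BoundedContinuousFunction.norm_le (by linarith)).2 f1
  obtain ⟨f, hf⟩ := exists_indep (W := W) hnf
  let L : W →ₗ[ℝ] (V → ℝ) :=
    { toFun := fun f => f.1
      map_add' := fun _ _ => rfl
      map_smul' := fun _ _ => rfl }
  refine ⟨fun n => L (f n), hf.map' L (LinearMap.ker_eq_bot'.2 fun g hg => ?_), fun n =>
    ⟨⟨‖(f n).1‖, fun v => (f n).1.norm_coe_le_norm v⟩, (f n).2⟩⟩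
  exact Subtype.ext (BoundedContinuousFunction.ext fun v => congrFun hg v)

end Pool.Agent.P.MP_542002_pr.H59
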