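import Pool.Agent.P.MP_542002_pr.Graph

/-! Uniform separation of pairs of darts by bounded harmonic functions. -/

namespace Pool.Agent.P.MP_542002_pr.H59

open Finset

variable {E : Type*} [DecidableEq E]

theorem nb_gap (o : E → Finset E) (J : E → E) (q : ℕ) (t κ : ℝ)
    (hJ : ∀ e, J (J e) = e) (hcard : ∀ e, (o e).card = q)
    (hrev : ∀ e f, f ∈ o e → J e ∈ o (J f))
    (hmerge : ∀ e f x, x ∈ o e → x ∈ o f → e ≠ f → J f ∈ o e)
    (ht0 : 0 < t) (ht1 : t < 1) (htq : t ^ 2 * q = 1)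
    (φ φ' : E → ℝ) (hφ0 : ∀ e, 0 ≤ φ e) (hφ : ∀ e, t * ∑ x ∈ o e, φ x ≤ φ e)
    (hφ'0 : ∀ e, 0 < φ' e) (hφ' : ∀ e, t ^ 2 * ∑ x ∈ o e, φ' x ≤ (1 - κ) * φ' e)
    (hκ : 0 < κ) (hκ1 : κ ≤ 1) (e0 : E) (he0 : 0 < φ e0) :
    ∃ ε : ℝ, 0 < ε ∧ ∀ e1, φ e1 ≤ ε → φ (J e1) ≤ ε → φ' e1 ≤ ε →
      ∃ g : E → ℝ, (∀ e, 0 ≤ g e ∧ g e ≤ 1) ∧ (∀ e, t ^ 2 * ∑ x ∈ o e, g x = g e) ∧
        κ / 2 ≤ g e1 - g (J e0) := by
  have h1t : 0 < 1 - t := by linarith
  have hp := hφ'0 (J e0)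
  set C : ℝ := 1 / φ e0 + 2 * (2 * (1 / φ e0) / (t * (1 - t)) + 1 / (κ * φ' (J e0)) + 1 / φ e0)
    with hC
  have hC0 : 0 < C := by positivity
  refine ⟨κ / (2 * C), by positivity, fun e1 s1 s2 s3 => ?_⟩
  set ε := κ / (2 * C) with hε
  have hεC : ε * C = κ / 2 := by rw [hε]; field_simp
  have hgap : κ / 2 ≤ κ - φ e1 / φ e0 - 2 * (2 * (φ e1 / φ e0) / (t * (1 - t))
      + φ' e1 / (κ * φ' (J e0)) + φ (J e1) / φ e0) := by
    have b1 : φ e1 / φ e0 ≤ ε / φ e0 := div_le_div_of_nonneg_right s1 he0.le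
    have b2 : φ (J e1) / φ e0 ≤ ε / φ e0 := div_le_div_of_nonneg_right s2 he0.le
    have b3 : φ' e1 / (κ * φ' (J e0)) ≤ ε / (κ * φ' (J e0)) :=
      div_le_div_of_nonneg_right s3 (by positivity)
    have b4 : 2 * (φ e1 / φ e0) / (t * (1 - t)) ≤ 2 * (ε / φ e0) / (t * (1 - t)) :=
      div_le_div_of_nonneg_right (by linarith) (by positivity)
    have b5 : ε * C = ε / φ e0 + 2 * (2 * (ε / φ e0) / (t * (1 - t)) + ε / (κ * φ' (J e0))
        + ε / φ e0) := by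
      rw [hC]; ring
    linarith
  have hsep := fun n => separate o J q t κ hJ hcard hrev hmerge ht0 ht1 htq φ φ' hφ0 hφ hφ'0 hφ'
    hκ hκ1 e0 he0 e1 n
  choose ψ hψ01 hψ using hsep
  set s := t ^ 2 with hs
  have hs0 : 0 ≤ s := by positivity
  have hcard' : ∀ e, s * ((o e).card : ℝ) = 1 := fun e => by rw [hcard, htq]
  set u : ℕ → ℕ → E → ℝ := fun n k e => s ^ k * (tr o)^[k] (ψ n) e with hu
  have hu0 : ∀ n k e, 0 ≤ u n k e := fun n k e =>
    mul_nonneg (pow_nonneg hs0 _) (iter_tr_nonneg o _ (fun e => (hψ01 n e).1) k e)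
  have hu1 : ∀ n k e, u n k e ≤ 1 := fun n k e =>
    (kill_bound o o (fun _ => subset_rfl) s hs0 hcard' (fun _ => 0) (fun _ => le_rfl)
      (by simp) (ψ n) (fun e => (hψ01 n e).2) k e).1
  have hustep : ∀ n k e, s * ∑ x ∈ o e, u n k x = u n (k + 1) e := by
    intro n k e
    simp only [hu]
    rw [Function.iterate_succ_apply', ← Finset.mul_sum]
    simp only [tr]
    ring
  set g : ℕ → E → ℝ := fun n e => (∑ k ∈ range (n + 1), u (n + 1) k e) / (n + 1 : ℝ) with hg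
  have hn : ∀ n : ℕ, (0 : ℝ) < n + 1 := fun n => by positivity
  have hg01 : ∀ n e, g n e ∈ Set.Icc (0 : ℝ) 1 := by
    intro n e
    constructor
    · exact div_nonneg (Finset.sum_nonneg fun k _ => hu0 _ _ _) (hn n).le
    · simp only [hg]
      rw [div_le_one (hn n)]
      have : ∑ k ∈ range (n + 1), u (n + 1) k e ≤ ∑ k ∈ range (n + 1), (1 : ℝ) :=
        Finset.sum_le_sum fun k _ => hu1 _ _ _
      simpa using this
  obtain ⟨U, f, hU, hUle, hf⟩ := exists_ultralimit g (fun _ => 0) (fun _ => 1) hg01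
  refine ⟨f, fun e => ?_, fun e => ?_, ?_⟩
  · exact isClosed_Icc.mem_of_tendsto (hf e) (Filter.Eventually.of_forall fun n => hg01 n e)
  · have l1 : Filter.Tendsto (fun n => s * ∑ x ∈ o e, g n x - g n e) U
        (nhds (s * ∑ x ∈ o e, f x - f e)) :=
      ((tendsto_finsetSum _ fun x _ => hf x).const_mul s).sub (hf e)
    have l2 : Filter.Tendsto (fun n => s * ∑ x ∈ o e, g n x - g n e) Filter.atTop (nhds 0) := by
      apply squeeze_zero_norm (a := fun n : ℕ => 1 / (n + 1 : ℝ))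
      · intro n
        have e2 : s * ∑ x ∈ o e, g n x - g n e
            = (u (n + 1) (n + 1) e - u (n + 1) 0 e) / (n + 1 : ℝ) := by
          simp only [hg]
          rw [← Finset.sum_div, ← mul_div_assoc, ← sub_div, Finset.sum_comm, Finset.mul_sum]
          simp_rw [hustep]
          congr 1
          rw [← Finset.sum_sub_distrib, Finset.sum_range_sub (fun k => u (n + 1) k e)]
        rw [e2, Real.norm_eq_abs, abs_div, abs_of_pos (hn n)]
        apply div_le_div_of_nonneg_right _ (hn n).le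
        rw [abs_le]
        constructor <;> linarith [hu0 (n + 1) (n + 1) e, hu1 (n + 1) (n + 1) e,
          hu0 (n + 1) 0 e, hu1 (n + 1) 0 e]
      · exact tendsto_one_div_add_atTop_nhds_zero_nat
    have := tendsto_nhds_unique l1 (l2.mono_left hUle)
    linarith
  · have l1 : Filter.Tendsto (fun n => g n e1 - g n (J e0)) U (nhds (f e1 - f (J e0))) :=
      (hf e1).sub (hf (J e0))
    apply ge_of_tendsto' l1
    intro n
    simp only [hg]
    rw [← sub_div, le_div_iff₀ (hn n)]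
    have h1 := hψ (n + 1)
    have h2 := mul_le_mul_of_nonneg_left hgap (hn n).le
    push_cast at h1
    simp only [hu]
    linarith

/-- an infinite sequence of pairwise uniformly separated darts -/
theorem nb_seq (o : E → Finset E) (J : E → E) (q : ℕ) (t κ : ℝ)
    (hJ : ∀ e, J (J e) = e) (hcard : ∀ e, (o e).card = q)
    (hrev : ∀ e f, f ∈ o e → J e ∈ o (J f))
    (hmerge : ∀ e f x, x ∈ o e → x ∈ o f → e ≠ f → J f ∈ o e)
    (ht0 : 0 < t) (ht1 : t < 1) (htq : t ^ 2 * q = 1)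
    (φ φ' : E → ℝ) (hφ0 : ∀ e, 0 ≤ φ e) (hφ : ∀ e, t * ∑ x ∈ o e, φ x ≤ φ e)
    (hφ'0 : ∀ e, 0 < φ' e) (hφ' : ∀ e, t ^ 2 * ∑ x ∈ o e, φ' x ≤ (1 - κ) * φ' e)
    (hκ : 0 < κ) (hκ1 : κ ≤ 1)
    (hsmall : ∀ ε : ℝ, 0 < ε → ∃ e, 0 < φ (J e) ∧ φ e ≤ ε ∧ φ (J e) ≤ ε ∧ φ' e ≤ ε) :
    ∃ a : ℕ → E, ∀ i j, i < j →
      ∃ g : E → ℝ, (∀ e, 0 ≤ g e ∧ g e ≤ 1) ∧ (∀ e, t ^ 2 * ∑ x ∈ o e, g x = g e) ∧
        κ / 2 ≤ g (a j) - g (a i) := by
  have h1 : ∀ e : E, ∃ ε : ℝ, 0 < ε ∧ (0 < φ (J e) → ∀ e1, φ e1 ≤ ε → φ (J e1) ≤ ε → φ' e1 ≤ ε →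
      ∃ g : E → ℝ, (∀ e, 0 ≤ g e ∧ g e ≤ 1) ∧ (∀ e, t ^ 2 * ∑ x ∈ o e, g x = g e) ∧
        κ / 2 ≤ g e1 - g e) := by
    intro e
    by_cases he : 0 < φ (J e)
    · obtain ⟨ε, hε, h⟩ := nb_gap o J q t κ hJ hcard hrev hmerge ht0 ht1 htq φ φ' hφ0 hφ hφ'0 hφ'
        hκ hκ1 (J e) he
      rw [hJ] at h
      exact ⟨ε, hε, fun _ => h⟩
    · exact ⟨1, one_pos, fun h => absurd h he⟩
  choose ε hε hsep using h1
  have : Nonempty E := ⟨(hsmall 1 one_pos).choose⟩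
  choose! nx hnx using hsmall
  let b : ℕ → ℝ := fun n => Nat.rec 1 (fun _ r => min r (ε (nx r))) n
  have hb : ∀ n, b (n + 1) = min (b n) (ε (nx (b n))) := fun _ => rfl
  have hb0 : ∀ n, 0 < b n := by
    intro n
    induction n with
    | zero => exact one_pos
    | succ n ih => rw [hb]; exact lt_min ih (hε _)
  have hanti : Antitone b := antitone_nat_of_succ_le fun n => by rw [hb]; exact min_le_left _ _
  refine ⟨fun n => nx (b n), fun i j hij => ?_⟩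
  have h2 : b j ≤ ε (nx (b i)) := (hanti (Nat.succ_le_of_lt hij)).trans (by
    rw [hb]; exact min_le_right _ _)
  obtain ⟨-, c1, c2, c3⟩ := hnx (b j) (hb0 j)
  exact hsep _ (hnx (b i) (hb0 i)).1 _ (c1.trans h2) (c2.trans h2) (c3.trans h2)

end Pool.Agent.P.MP_542002_pr.H59
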