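import Pool.Agent.P.MP_542002_pr.H59.Dim

/-! From the spectral radius of the Markov operator to a positive supersolution, on graphs that
need not be connected. -/

namespace Pool.Agent.P.MP_542002_pr.H59

open Finset Filter

variable {V : Type*} [DecidableEq V] (G : SimpleGraph V) [G.LocallyFinite]

lemma below (o : V) (z : ℝ) (hz : 0 < z)
    (hall : ∀ x, Summable fun n : ℕ => z ^ n * ((G.finsetWalkLength n x o).card : ℝ)) :
    ∃ h : V → ℝ, h o = 1 ∧ (∀ x, 0 ≤ h x) ∧ ∀ x, z * ∑ y ∈ G.neighborFinset x, h y ≤ h x := by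
  have hnn : ∀ x n, 0 ≤ z ^ n * ((G.finsetWalkLength n x o).card : ℝ) := fun x n => by positivity
  set g : V → ℝ := fun x => ∑' n : ℕ, z ^ n * ((G.finsetWalkLength n x o).card : ℝ) with hg
  have hg0 : ∀ x, 0 ≤ g x := fun x => tsum_nonneg (hnn x)
  have hgo : 1 ≤ g o := by
    have := (hall o).le_tsum 0 (fun n _ => hnn o n)
    simpa [SimpleGraph.finsetWalkLength] using this
  have hgs : ∀ x, z * ∑ y ∈ G.neighborFinset x, g y ≤ g x := by
    intro x
    have h1 := (hall x).tsum_eq_zero_add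
    have h2 : ∑' n : ℕ, z ^ (n + 1) * ((G.finsetWalkLength (n + 1) x o).card : ℝ)
        = z * ∑ y ∈ G.neighborFinset x, g y := by
      simp only [hg]
      rw [← Summable.tsum_finsetSum (fun y _ => hall y), ← tsum_mul_left]
      apply tsum_congr
      intro n
      rw [card_walk_succ, ← Finset.mul_sum]
      ring
    have h3 := hnn x 0
    simp only [hg] at h2 ⊢
    linarith
  have hgo' : 0 < g o := by linarith
  refine ⟨fun x => g x / g o, div_self hgo'.ne', fun x => div_nonneg (hg0 x) hgo'.le, fun x => ?_⟩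
  rw [← Finset.sum_div, ← mul_div_assoc]
  exact div_le_div_of_nonneg_right (hgs x) hgo'.le

/-- a supersolution at the threshold, positive on the component of `o` -/
lemma at_root (o : V) (z0 : ℝ) (hz0 : 0 < z0)
    (hs : ∀ z, 0 < z → z < z0 →
      ∀ x, Summable fun n : ℕ => z ^ n * ((G.finsetWalkLength n x o).card : ℝ)) :
    ∃ h : V → ℝ, ∀ x, G.Reachable x o →
      0 < h x ∧ z0 * ∑ y ∈ G.neighborFinset x, h y ≤ h x := by
  classical
  set z : ℕ → ℝ := fun n => z0 * (1 - 1 / ((n : ℝ) + 1) / 2) with hz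
  have hn : ∀ n : ℕ, 0 < 1 / ((n : ℝ) + 1) ∧ 1 / ((n : ℝ) + 1) ≤ 1 := by
    intro n
    have : (0 : ℝ) ≤ n := Nat.cast_nonneg n
    refine ⟨by positivity, ?_⟩
    rw [div_le_one (by linarith)]
    linarith
  have hz1 : ∀ n, z0 / 2 ≤ z n := fun n => by simp only [hz]; nlinarith [hn n]
  have hz2 : ∀ n, z n < z0 := fun n => by simp only [hz]; nlinarith [hn n]
  have hzp : ∀ n, 0 < z n := fun n => by linarith [hz1 n]
  have hlim : Filter.Tendsto z Filter.atTop (nhds z0) := by
    have h1 := ((tendsto_one_div_add_atTop_nhds_zero_nat (𝕜 := ℝ)).div_const 2).const_sub 1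
    have h2 := h1.const_mul z0
    simp only [zero_div, sub_zero, mul_one] at h2
    exact h2
  choose h ho h0 hh using fun n => below G o (z n) (hzp n) (hs _ (hzp n) (hz2 n))
  have hh' : ∀ n x, z0 / 2 * ∑ y ∈ G.neighborFinset x, h n y ≤ h n x := fun n x =>
    (mul_le_mul_of_nonneg_right (hz1 n) (Finset.sum_nonneg fun y _ => h0 n y)).trans (hh n x)
  set p : ∀ x : {x // G.Reachable x o}, G.Walk x.1 o := fun x => Nonempty.some x.2
  have hz0' : 0 < z0 / 2 := by linarith
  obtain ⟨U, f, hU, hUle, hf⟩ := exists_ultralimit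
    (fun n (x : {x // G.Reachable x o}) => h n x.1) (fun x => (z0 / 2) ^ (p x).length)
    (fun x => 1 / (z0 / 2) ^ (p x).length) (by
      intro n x
      constructor
      · have := walk_harnack G _ hz0' (h n) (h0 n) (hh' n) (p x)
        rwa [ho n, mul_one] at this
      · have := walk_harnack G _ hz0' (h n) (h0 n) (hh' n) (p x).reverse
        rw [ho n, SimpleGraph.Walk.length_reverse] at this
        rw [le_div_iff₀ (by positivity)]
        linarith)
  have hf' : ∀ x, G.Reachable x o → Tendsto (fun n => h n x) U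
      (nhds (if hx : G.Reachable x o then f ⟨x, hx⟩ else 0)) := fun x hx => by
    rw [dif_pos hx]
    exact hf ⟨x, hx⟩
  refine ⟨fun x => if hx : G.Reachable x o then f ⟨x, hx⟩ else 0, fun x hx => ⟨?_, ?_⟩⟩
  · refine lt_of_lt_of_le (pow_pos hz0' (p ⟨x, hx⟩).length) (ge_of_tendsto' (hf' x hx) fun n => ?_)
    have := walk_harnack G _ hz0' (h n) (h0 n) (hh' n) (p ⟨x, hx⟩)
    rwa [ho n, mul_one] at this
  · exact le_of_tendsto_of_tendsto' ((hlim.mono_left hUle).mul
      (tendsto_finsetSum _ fun y hy => hf' y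
        (((G.mem_neighborFinset x y).1 hy).symm.reachable.trans hx))) (hf' x hx) fun n => hh n x

/-- a positive supersolution at the threshold -/
lemma super_all (z0 : ℝ) (hz0 : 0 < z0)
    (hs : ∀ z, 0 < z → z < z0 →
      ∀ o x, Summable fun n : ℕ => z ^ n * ((G.finsetWalkLength n x o).card : ℝ)) :
    ∃ h : V → ℝ, (∀ x, 0 < h x) ∧ ∀ x, z0 * ∑ y ∈ G.neighborFinset x, h y ≤ h x := by
  choose h hh using fun o => at_root G o z0 hz0 fun z h1 h2 => hs z h1 h2 o
  let r : V → V := fun x => (G.connectedComponentMk x).out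
  have hr : ∀ x, G.Reachable x (r x) := fun x =>
    SimpleGraph.ConnectedComponent.exact (G.connectedComponentMk x).out_eq.symm
  refine ⟨fun x => h (r x) x, fun x => (hh _ x (hr x)).1, fun x => ?_⟩
  refine le_trans (le_of_eq ?_) (hh _ x (hr x)).2
  congr 1
  refine Finset.sum_congr rfl fun y hy => ?_
  have : G.connectedComponentMk y = G.connectedComponentMk x :=
    SimpleGraph.ConnectedComponent.sound ((G.mem_neighborFinset x y).1 hy).symm.reachable
  simp only [r, this]

lemma pow_single (d : ℕ) (hd : (d : ℂ) ≠ 0)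
    (P : lp (fun _ : V => ℂ) 2 →L[ℂ] lp (fun _ : V => ℂ) 2)
    (hP : ∀ f v, P f v = 1 / (d : ℂ) * ∑ u ∈ G.neighborFinset v, f u) (o : V) (n : ℕ) (x : V) :
    (P ^ n) (lp.single 2 o 1) x =
      ((((G.finsetWalkLength n x o).card : ℝ) / (d : ℝ) ^ n : ℝ) : ℂ) := by
  induction n generalizing x with
  | zero =>
    by_cases h : x = o
    · subst h
      simp [SimpleGraph.finsetWalkLength]
    · simp [SimpleGraph.finsetWalkLength, h, lp.single_apply]
  | succ n ih =>
    have e : (P ^ (n + 1)) (lp.single 2 o 1) = P ((P ^ n) (lp.single 2 o 1)) := by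
      rw [pow_succ']; rfl
    rw [e, hP, card_walk_succ]
    simp only [ih]
    push_cast
    rw [← Finset.sum_div]
    field_simp
    ring

lemma summable_of_spec (d : ℕ) (hd : 0 < d)
    (P : lp (fun _ : V => ℂ) 2 →L[ℂ] lp (fun _ : V => ℂ) 2)
    (hP : ∀ f v, P f v = 1 / (d : ℂ) * ∑ u ∈ G.neighborFinset v, f u) (ρ : ℝ) (hρ0 : 0 < ρ)
    (hρ : spectralRadius ℂ P ≤ ENNReal.ofReal ρ) (z : ℝ) (hz : 0 < z) (hzρ : z * d * ρ < 1)
    (o x : V) : Summable fun n : ℕ => z ^ n * ((G.finsetWalkLength n x o).card : ℝ) := by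
  have hd' : (0 : ℝ) < d := by exact_mod_cast hd
  have hzd : 0 < z * d := mul_pos hz hd'
  obtain ⟨r, hr1, hr2⟩ := exists_between (show ρ < 1 / (z * d) by
    rw [lt_div_iff₀ hzd]; linarith)
  have hr0 : 0 < r := by linarith
  have hlt : z * d * r < 1 := by
    rw [lt_div_iff₀ hzd] at hr2; linarith
  have hev := (spectrum.pow_norm_pow_one_div_tendsto_nhds_spectralRadius P).eventually
    (gt_mem_nhds (hρ.trans_lt ((ENNReal.ofReal_lt_ofReal_iff hr0).2 hr1)))
  refine Summable.of_norm_bounded_eventually_nat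
    (summable_geometric_of_lt_one (mul_pos hzd hr0).le hlt) ?_
  filter_upwards [hev, Filter.eventually_ge_atTop 1] with n hn hn1
  have hn0 : n ≠ 0 := by omega
  rw [ENNReal.ofReal_lt_ofReal_iff hr0] at hn
  have h1 : ‖P ^ n‖ ≤ r ^ n := by
    have h2 := pow_le_pow_left₀ (Real.rpow_nonneg (norm_nonneg _) _) hn.le n
    rwa [one_div, Real.rpow_inv_natCast_pow (norm_nonneg _) hn0] at h2
  have h3 := lp.norm_apply_le_norm (by norm_num) ((P ^ n) (lp.single 2 o 1)) x
  have h4 := (P ^ n).le_opNorm (lp.single 2 o 1)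
  rw [lp.norm_single (by norm_num), norm_one, mul_one] at h4
  rw [pow_single G d (by exact_mod_cast hd.ne') P hP, Complex.norm_real,
    Real.norm_of_nonneg (by positivity)] at h3
  have h5 := (h3.trans h4).trans h1
  rw [div_le_iff₀ (by positivity)] at h5
  rw [Real.norm_eq_abs, abs_of_nonneg (by positivity), mul_pow, mul_pow]
  have := mul_le_mul_of_nonneg_left h5 (pow_nonneg hz.le n)
  linarith

theorem main [Nonempty V] (d : ℕ) (hd : 3 ≤ d) (hreg : G.IsRegularOfDegree d)
    (P : lp (fun _ : V => ℂ) 2 →L[ℂ] lp (fun _ : V => ℂ) 2)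
    (hP : ∀ f v, P f v = 1 / (d : ℂ) * ∑ u ∈ G.neighborFinset v, f u)
    (hρ : spectralRadius ℂ P ≤ ENNReal.ofReal (2 * Real.sqrt ((d : ℝ) - 1) / d)) :
    ∃ f : ℕ → V → ℝ, LinearIndependent ℝ f ∧ ∀ n, (∃ C : ℝ, ∀ v, |f n v| ≤ C) ∧
      ∀ v, f n v = 1 / (d : ℝ) * ∑ u ∈ G.neighborFinset v, f n u := by
  obtain ⟨q, rfl⟩ : ∃ q, d = q + 1 := ⟨d - 1, by omega⟩
  have hq : (2 : ℝ) ≤ q := by exact_mod_cast (by omega : 2 ≤ q)
  have e1 : ((q + 1 : ℕ) : ℝ) - 1 = q := by push_cast; ring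
  rw [e1] at hρ
  have hs1 : 1 < Real.sqrt q := Real.lt_sqrt_of_sq_lt (by linarith)
  have hs2 : Real.sqrt q ^ 2 = q := Real.sq_sqrt (by linarith)
  have hd' : (0 : ℝ) < ((q + 1 : ℕ) : ℝ) := by positivity
  obtain ⟨h, h0, hs⟩ := super_all G (1 / Real.sqrt q / 2) (by positivity) fun z hz hz' =>
    summable_of_spec G (q + 1) (by omega) P hP _ (by positivity) hρ z hz (by
      rw [div_div, lt_div_iff₀ (by positivity)] at hz'
      have : z * ((q + 1 : ℕ) : ℝ) * (2 * Real.sqrt q / ((q + 1 : ℕ) : ℝ)) =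
          z * (Real.sqrt q * 2) := by field_simp
      rw [this]
      exact hz')
  obtain ⟨f, f1, f2⟩ := indep_of_super G q hreg (1 / Real.sqrt q) (by positivity)
    (by rw [div_lt_one (by linarith)]; exact hs1)
    (by rw [div_pow, hs2]; field_simp) h h0 (fun x => by linarith [hs x])
  refine ⟨f, f1, fun n => ⟨(f2 n).1, fun v => ?_⟩⟩
  rw [← (f2 n).2 v]
  push_cast
  field_simp

end Pool.Agent.P.MP_542002_pr.H59
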