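import Pool.Agent.P.MP_542002_pr.H59.Gap

/-! A sequence of edges that bounded harmonic functions separate uniformly. -/

namespace Pool.Agent.P.MP_542002_pr.H59

open Finset

variable {V : Type*} [DecidableEq V] (G : SimpleGraph V) [G.LocallyFinite]

/-- from a function on darts to a function on vertices -/
theorem vertex_fun (q : ℕ) (hreg : G.IsRegularOfDegree (q + 1)) (t : ℝ) (htq : t ^ 2 * q = 1)
    (g : G.Dart → ℝ) (hg01 : ∀ e, 0 ≤ g e ∧ g e ≤ 1)
    (hg : ∀ e, t ^ 2 * ∑ x ∈ outD G e, g x = g e) :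
    ∃ f : V → ℝ, (∀ v, |f v| ≤ q + 1) ∧
      (∀ v, ((q : ℝ) + 1) * f v = ∑ w ∈ G.neighborFinset v, f w) ∧
      ∀ e : G.Dart, q * f e.snd - f e.fst = ((q : ℝ) ^ 2 - 1) * g e := by
  classical
  have hcardN : ∀ v, ((G.neighborFinset v).card : ℝ) = q + 1 := by
    intro v
    rw [G.card_neighborFinset_eq_degree, hreg]; push_cast; ring
  set g' : V → V → ℝ := fun u v => if huv : G.Adj u v then g ⟨(u, v), huv⟩ else 0 with hg'
  have hgg : ∀ x : G.Dart, g x = g' x.fst x.snd := by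
    intro x
    simp only [hg']
    rw [dif_pos x.adj]
  set f : V → ℝ := fun v => ∑ w ∈ G.neighborFinset v, g' v w with hf
  have hq0 : (0 : ℝ) < q := by
    by_contra hneg
    have : (q : ℝ) = 0 := le_antisymm (not_lt.mp hneg) (Nat.cast_nonneg q)
    rw [this] at htq
    simp at htq
  have rel : ∀ u v, G.Adj u v → q * g' u v + g' v u = f v := by
    intro u v huv
    have h1 := hg ⟨(u, v), huv⟩
    simp_rw [hgg] at h1
    rw [sum_outD G ⟨(u, v), huv⟩ g'] at h1
    simp only at h1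
    have h2 : (q : ℝ) * (t ^ 2 * (∑ w ∈ G.neighborFinset v, g' v w - g' v u))
        = ∑ w ∈ G.neighborFinset v, g' v w - g' v u := by
      rw [← mul_assoc, mul_comm (q : ℝ), htq, one_mul]
    rw [h1] at h2
    simp only [hf]
    linarith
  refine ⟨f, fun v => ?_, fun u => ?_, fun x => ?_⟩
  · have b1 : ∀ w, 0 ≤ g' v w ∧ g' v w ≤ 1 := by
      intro w
      simp only [hg']
      split_ifs
      · exact hg01 _
      · norm_num
    rw [abs_of_nonneg (Finset.sum_nonneg fun w _ => (b1 w).1)]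
    have : ∑ w ∈ G.neighborFinset v, g' v w ≤ ∑ w ∈ G.neighborFinset v, (1 : ℝ) :=
      Finset.sum_le_sum fun w _ => (b1 w).2
    rwa [Finset.sum_const, nsmul_eq_mul, mul_one, hcardN] at this
  · have s1 : ∑ v ∈ G.neighborFinset u, (q * g' u v + g' v u) = ∑ v ∈ G.neighborFinset u, f v :=
      Finset.sum_congr rfl fun v hv => rel u v ((G.mem_neighborFinset _ _).mp hv)
    have s2 : ∑ v ∈ G.neighborFinset u, (q * g' v u + g' u v) = ∑ v ∈ G.neighborFinset u, f u :=
      Finset.sum_congr rfl fun v hv => rel v u ((G.mem_neighborFinset _ _).mp hv).symm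
    rw [Finset.sum_add_distrib, ← Finset.mul_sum] at s1 s2
    rw [Finset.sum_const, nsmul_eq_mul, hcardN] at s2
    have s3 : ∑ v ∈ G.neighborFinset u, g' u v = f u := rfl
    rw [s3] at s1 s2
    have s4 : ∑ v ∈ G.neighborFinset u, g' v u = f u := by
      have : (q : ℝ) * ∑ v ∈ G.neighborFinset u, g' v u = q * f u := by linarith
      exact mul_left_cancel₀ hq0.ne' this
    rw [← s1, s4]
    ring
  · rw [← rel _ _ x.adj, ← rel _ _ x.adj.symm, hgg]
    ring

theorem sep_of_super [Nonempty V] (q : ℕ) (hreg : G.IsRegularOfDegree (q + 1)) (t : ℝ)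
    (ht0 : 0 < t) (ht1 : t < 1) (htq : t ^ 2 * q = 1) (h : V → ℝ) (h0 : ∀ x, 0 < h x)
    (hs : ∀ x, t * ∑ y ∈ G.neighborFinset x, h y ≤ 2 * h x) :
    ∃ (c : ℝ) (a b : ℕ → V), 0 < c ∧ ∀ i j, i < j → ∃ f : V → ℝ, (∀ v, |f v| ≤ q + 1) ∧
      (∀ v, ((q : ℝ) + 1) * f v = ∑ w ∈ G.neighborFinset v, f w) ∧
      c ≤ (q * f (b j) - f (a j)) - (q * f (b i) - f (a i)) := by
  classical
  have har : ∀ {u v : V}, G.Adj u v → t * h u ≤ h v := fun huv =>
    sharp_harnack G q hreg t ht0 htq h h0 hs huv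
  have hnb : ∀ v, ∃ w, G.Adj v w := by
    intro v
    have : 0 < (G.neighborFinset v).card := by
      rw [G.card_neighborFinset_eq_degree, hreg]; omega
    obtain ⟨w, hw⟩ := Finset.card_pos.mp this
    exact ⟨w, (G.mem_neighborFinset _ _).mp hw⟩
  have hcardN : ∀ v, ((G.neighborFinset v).card : ℝ) = q + 1 := by
    intro v
    rw [G.card_neighborFinset_eq_degree, hreg]; push_cast; ring
  have hsum : ∀ (c : ℝ) (e : G.Dart), ∑ x ∈ outD G e, (h x.snd - c * h x.fst)
      = ∑ w ∈ G.neighborFinset e.snd, h w - h e.fst - c * q * h e.snd := by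
    intro c e
    rw [sum_outD G e (fun a b => h b - c * h a), Finset.sum_sub_distrib, Finset.sum_const,
      nsmul_eq_mul, hcardN]
    ring
  have hκ : 0 < (1 - t) ^ 2 := by
    have : 0 < 1 - t := by linarith
    positivity
  have hsm : ∀ (ε : ℝ) (v w : V) (hw : G.Adj v w), h v ≤ ε → h w ≤ ε → h w ≤ h v →
      ∃ e : G.Dart, 0 < h e.symm.snd - t * h e.symm.fst ∧ h e.snd - t * h e.fst ≤ ε ∧
        h e.symm.snd - t * h e.symm.fst ≤ ε ∧ h e.snd - t ^ 2 * h e.fst ≤ ε := by
    intro ε v w hw h3 h2 h1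
    have h4 := mul_pos ht0 (h0 v)
    have h5 := mul_pos ht0 (h0 w)
    have h6 : 0 ≤ t ^ 2 * h v := mul_nonneg (sq_nonneg _) (h0 v).le
    refine ⟨⟨(v, w), hw⟩, ?_, ?_, ?_, ?_⟩
    · show 0 < h v - t * h w
      nlinarith [h0 w]
    · simp only; linarith
    · show h v - t * h w ≤ ε
      linarith
    · simp only; linarith
  obtain ⟨a, ha⟩ := nb_seq (outD G) SimpleGraph.Dart.symm q t ((1 - t) ^ 2)
    (fun e => e.symm_symm) (card_outD G q hreg)
    (by
      intro e f hf
      rw [mem_outD] at hf ⊢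
      exact ⟨hf.1.symm, fun h => hf.2 h.symm⟩)
    (by
      intro e f x hx hx' hef
      rw [mem_outD] at hx hx' ⊢
      refine ⟨hx'.1.symm.trans hx.1, fun h => hef ?_⟩
      apply SimpleGraph.Dart.ext
      ext
      · exact h.symm
      · exact hx.1.symm.trans hx'.1)
    ht0 ht1 htq (fun e => h e.snd - t * h e.fst) (fun e => h e.snd - t ^ 2 * h e.fst)
    (fun e => sub_nonneg.mpr (har e.adj))
    (by
      intro e
      rw [hsum]
      have h1 := hs e.snd
      have h2 : t * (t * q * h e.snd) = h e.snd := by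
        linear_combination (h e.snd) * htq
      nlinarith)
    (by
      intro e
      have h1 := har e.adj
      have h2 := h0 e.fst
      have h3 : 0 < t * h e.fst := mul_pos ht0 h2
      nlinarith)
    (by
      intro e
      rw [hsum]
      have h1 := mul_le_mul_of_nonneg_left (hs e.snd) ht0.le
      have h2 : t ^ 2 * (t ^ 2 * q * h e.snd) = t ^ 2 * h e.snd := by rw [htq, one_mul]
      have h3 : 0 ≤ (1 - t) ^ 2 * (t ^ 2 * h e.fst) := mul_nonneg (sq_nonneg _)
        (mul_nonneg (sq_nonneg _) (h0 _).le)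
      nlinarith)
    hκ (by nlinarith)
    (by
      intro ε hε
      obtain ⟨v, hv⟩ := inf_zero G q hreg t ht0 ht1 htq h h0 hs (t * ε) (mul_pos ht0 hε)
      obtain ⟨w, hw⟩ := hnb v
      have h1 := har hw.symm
      have h2 : h w ≤ ε := by
        have : t * h w ≤ t * ε := by linarith
        exact le_of_mul_le_mul_left this ht0
      have h3 : h v ≤ ε := by nlinarith
      rcases le_total (h w) (h v) with h7 | h7
      · exact hsm ε v w hw h3 h2 h7
      · exact hsm ε w v hw.symm h2 h3 h7)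
  have hq1 : (1 : ℝ) < q := by nlinarith [Nat.cast_nonneg (α := ℝ) q]
  have hq2 : (0 : ℝ) < (q : ℝ) ^ 2 - 1 := by nlinarith
  refine ⟨((q : ℝ) ^ 2 - 1) * ((1 - t) ^ 2 / 2), fun n => (a n).fst, fun n => (a n).snd,
    by positivity, fun i j hij => ?_⟩
  obtain ⟨g, g1, g2, g3⟩ := ha i j hij
  obtain ⟨f, f1, f2, f3⟩ := vertex_fun G q hreg t htq g g1 g2
  refine ⟨f, f1, f2, ?_⟩
  rw [f3, f3, ← mul_sub]
  exact mul_le_mul_of_nonneg_left g3 hq2.le

end Pool.Agent.P.MP_542002_pr.H59
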